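import Pool.Agent.H18.D2.Aj

/-!
# The first jets of a jointly nonfull pair, unequal slopes

Two families of polynomial paths `Ru`, `Rz` on the lines, with `a` resp. `b` digits per unit of
radius, `a < b`. At each radius `z` is not full given `u` of the same radius, and `u` is not full
given `z` of the same radius. The jets of order `≥ 2` and the values at the time of the sample are
few bits, the first jets are natural. Then both first jets are few bits (`pair_jets`).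

Proof: if the first jets are known to the radius `g` before the end, then on the window shorter by
`a * g` digits the path of `u` is known, and `all_jets` applies to `z` over the path of `u`; then
`all_jets` applies to `u` on the long window over the path of `z`.
-/

set_option autoImplicit false

namespace Pool.PAIR76

open Finset Real MvPolynomial
open Pool.Agent.H49.Ent Pool.Agent.H32.Dense Pool.STK Pool.KA Pool.KSAT Pool.K2S Pool.PB Pool.GEN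
open Pool.S6C Pool.LA91 Pool.OWN68 Pool.AJ18

variable {m J : ℕ}

/-- The floors of the coefficients. -/
noncomputable def cfl (F : Fam m J) (D : ℕ) (R : LnT F → Polynomial ℝ) (x : LnT F) :
    Fin (D + 1) → ℤ := fun j => ⌊(R x).coeff j⌋

/-- **From the jets to the coefficients.** -/
theorem cfl_few (D : ℕ) : ∃ C : ℝ, 0 ≤ C ∧ ∀ {m J : ℕ} (F : Fam m J) {q : F.Ω → ℝ} (_ : IsLaw q)
    (R : LnT F → Polynomial ℝ) (w : ℕ) {Γ : Type} (Y : F.Ω → Γ) (e : ℝ),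
    (∀ x, (R x).natDegree ≤ D) →
    (∀ ω ω', 0 < q ω → 0 < q ω' → Y ω = Y ω' → F.T ω = F.T ω') →
    (∀ j ≤ D, CH q (fun ω => ⌊pj F R w j ω⌋) Y ≤ e) →
    CH q (fun ω => cfl F D R (slam F w ω)) Y ≤ (D + 1) * e + C := by
  obtain ⟨C, hC, hcof⟩ := cof_small D
  have hD0 : (0 : ℝ) ≤ D := Nat.cast_nonneg D
  refine ⟨(D + 1) * Real.log (2 * ((⌈C⌉₊ : ℝ) + 1) + 1), ?_, ?_⟩
  · refine mul_nonneg (by positivity) (Real.log_nonneg ?_)
    have : (0 : ℝ) ≤ (⌈C⌉₊ : ℝ) := Nat.cast_nonneg _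
    linarith
  intro m J F q hq R w Γ Y e hdeg hY hjet
  have h0 := hq.nonneg
  obtain ⟨V, hV⟩ : ∃ V : F.Ω → Fin (D + 1) → ℤ, V = fun ω (j : Fin (D + 1)) =>
    ⌊pj F R w j ω⌋ := ⟨_, rfl⟩
  have hVc : CH q V Y ≤ (D + 1) * e := by
    refine (CH_pis h0 V Y).trans ?_
    have h1 : ∀ j ∈ (univ : Finset (Fin (D + 1))), CH q (fun ω => V ω j) Y ≤ e := by
      intro j _
      rw [hV]
      exact hjet j (by omega)
    refine (Finset.sum_le_sum h1).trans (le_of_eq ?_)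
    rw [Finset.sum_const, Finset.card_univ, Fintype.card_fin, nsmul_eq_mul]
    push_cast
    ring
  have hUc : CH q (fun ω => cfl F D R (slam F w ω)) (fun ω => (V ω, Y ω)) ≤
      (D + 1) * Real.log (2 * ((⌈C⌉₊ : ℝ) + 1) + 1) := by
    refine (CH_pis h0 _ _).trans ?_
    have h1 : ∀ j ∈ (univ : Finset (Fin (D + 1))), CH q (fun ω => cfl F D R (slam F w ω) j)
        (fun ω => (V ω, Y ω)) ≤ Real.log (2 * ((⌈C⌉₊ : ℝ) + 1) + 1) := by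
      intro j _
      have h2 : CH q (fun ω => cfl F D R (slam F w ω) j) (fun ω => (V ω, Y ω)) ≤
          Real.log (2 * ((⌈C⌉₊ + 1 : ℕ) : ℝ) + 1) := by
        refine CH_pair hq _ _ fun ω ω' hω hω' e1 => ?_
        simp only [Prod.mk.injEq] at e1
        obtain ⟨e1, e2⟩ := e1
        have hTT := hY ω ω' hω hω' e2
        have hu : uw F w ω' = uw F w ω := by
          unfold uw tw
          rw [hTT]
        have hEd : (R (slam F w ω) - R (slam F w ω')).natDegree ≤ D :=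
          (Polynomial.natDegree_sub_le _ _).trans (max_le (hdeg _) (hdeg _))
        have h3 := hcof (R (slam F w ω) - R (slam F w ω')) j (uw F w ω) 1 hEd (uw_abs F w ω) (by
          intro i _
          have e4 : (Polynomial.derivative^[i] (R (slam F w ω) - R (slam F w ω'))).eval
              (uw F w ω) = pj F R w i ω - pj F R w i ω' := by
            rw [Polynomial.iterate_derivative_sub, Polynomial.eval_sub]
            unfold pj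
            rw [hu]
          by_cases hi : i ≤ D
          · rw [e4]
            rw [hV] at e1
            have e5 := congrFun e1 (⟨i, by omega⟩ : Fin (D + 1))
            exact of_floor_div (m := 1) one_pos (by simp only [div_one]; exact e5)
          · rw [Polynomial.iterate_derivative_eq_zero (by omega), Polynomial.eval_zero, abs_zero]
            exact zero_le_one)
        unfold cfl
        refine floor_sub_le ?_
        rw [← Polynomial.coeff_sub]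
        refine h3.trans ?_
        rw [mul_one]
        exact Nat.le_ceil C
      push_cast at h2
      exact h2
    refine (Finset.sum_le_sum h1).trans (le_of_eq ?_)
    rw [Finset.sum_const, Finset.card_univ, Fintype.card_fin, nsmul_eq_mul]
    push_cast
    ring
  have := CH_le_add h0 (fun ω => cfl F D R (slam F w ω)) V Y
  linarith

/-- The value at the time, given the coefficients and the time. -/
theorem val_few (D : ℕ) : ∃ C : ℝ, 0 ≤ C ∧ ∀ {m J : ℕ} (F : Fam m J) {q : F.Ω → ℝ} (_ : IsLaw q)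
    (R : LnT F → Polynomial ℝ) (w : ℕ) {Γ : Type} (Y : F.Ω → Γ) (s : ℝ), 1 ≤ s →
    (∀ x, (R x).natDegree ≤ D) →
    (∀ ω ω', 0 < q ω → 0 < q ω' → Y ω = Y ω' → F.T ω = F.T ω' ∧
      cfl F D R (slam F w ω) = cfl F D R (slam F w ω')) →
    CH q (fun ω => ⌊pj F R w 0 ω / s⌋) Y ≤ C := by
  obtain ⟨C, hC, hder⟩ := der_small D
  refine ⟨Real.log (2 * ((⌈C⌉₊ : ℝ) + 1) + 1), ?_, ?_⟩
  · refine Real.log_nonneg ?_
    have : (0 : ℝ) ≤ (⌈C⌉₊ : ℝ) := Nat.cast_nonneg _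
    linarith
  intro m J F q hq R w Γ Y s hs hdeg hY
  have h2 : CH q (fun ω => ⌊pj F R w 0 ω / s⌋) Y ≤
      Real.log (2 * ((⌈C⌉₊ + 1 : ℕ) : ℝ) + 1) := by
    refine CH_pair hq _ _ fun ω ω' hω hω' e1 => ?_
    obtain ⟨hTT, hc⟩ := hY ω ω' hω hω' e1
    have hu : uw F w ω' = uw F w ω := by
      unfold uw tw
      rw [hTT]
    have hE : ((R (slam F w ω)) - (R (slam F w ω'))).natDegree ≤ D :=
      (Polynomial.natDegree_sub_le _ _).trans (max_le (hdeg _) (hdeg _))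
    have h2 := hder _ 0 (uw F w ω) 1 hE (uw_abs _ _ _) (by
      intro i _
      rw [Polynomial.coeff_sub]
      by_cases hi : i ≤ D
      · have e3 := congrFun hc (⟨i, by omega⟩ : Fin (D + 1))
        exact of_floor_div (m := 1) one_pos (by simp only [div_one]; exact e3)
      · rw [Polynomial.coeff_eq_zero_of_natDegree_lt (lt_of_le_of_lt (hdeg _) (by omega)),
          Polynomial.coeff_eq_zero_of_natDegree_lt (lt_of_le_of_lt (hdeg _) (by omega)), sub_zero,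
          abs_zero]
        exact zero_le_one)
    have e4 : (Polynomial.derivative^[0] (R (slam F w ω) - R (slam F w ω'))).eval
        (uw F w ω) = pj F R w 0 ω - pj F R w 0 ω' := by
      rw [Polynomial.iterate_derivative_sub, Polynomial.eval_sub]
      unfold pj
      rw [hu]
    rw [e4, mul_one] at h2
    refine floor_sub_le ?_
    rw [← sub_div, abs_div, abs_of_pos (lt_of_lt_of_le one_pos hs)]
    refine (div_le_self (abs_nonneg _) hs).trans (h2.trans (Nat.le_ceil C))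
  push_cast at h2
  exact h2

/-- Coarser side information costs `O(1)`. -/
theorem coarse {Ω Γ Δ S : Type} [Fintype Ω] {q : Ω → ℝ} (hq : IsLaw q) (X : Ω → S) (f : Ω → ℝ)
    (a : Ω → Γ) (b : Ω → Δ) {s₁ s₂ : ℝ} (h1 : 0 < s₁) (h2 : s₁ ≤ s₂) :
    CH q X (fun ω => (a ω, (⌊f ω / s₁⌋, b ω))) ≤
      CH q X (fun ω => (a ω, (⌊f ω / s₂⌋, b ω))) + Real.log 5 := by
  have h0 := hq.nonneg
  have hs2 : 0 < s₂ := h1.trans_le h2
  have e1 := CH_le_add h0 X (fun ω => ⌊f ω / s₂⌋) (fun ω => (a ω, (⌊f ω / s₁⌋, b ω)))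
  have e2 : CH q (fun ω => ⌊f ω / s₂⌋) (fun ω => (a ω, (⌊f ω / s₁⌋, b ω))) ≤
      Real.log (2 * ((1 + 1 : ℕ) : ℝ) + 1) := by
    refine CH_pair hq _ _ fun ω ω' _ _ e => ?_
    simp only [Prod.mk.injEq] at e
    have h3 := of_floor_div h1 e.2.1
    refine floor_sub_le ?_
    rw [← sub_div, abs_div, abs_of_pos hs2, div_le_iff₀ hs2]
    push_cast
    linarith
  have e3 : CH q X (fun ω => (⌊f ω / s₂⌋, (a ω, (⌊f ω / s₁⌋, b ω)))) ≤
      CH q X (fun ω => (a ω, (⌊f ω / s₂⌋, b ω))) :=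
    CH_mono_cond h0 fun ω ω' _ _ e => by
      simp only [Prod.mk.injEq] at e ⊢
      exact ⟨e.2.1, e.1, e.2.2.2⟩
  have e4 : Real.log (2 * ((1 + 1 : ℕ) : ℝ) + 1) = Real.log 5 := by norm_num
  rw [e4] at e2
  linarith

/-- The rows of `R` at the levels of a grid, given `R₂` to unit precision. -/
def NF1 (F : Fam m J) (A : F.Ω → Prop) (R R₂ : LnT F → Polynomial ℝ) {𝒞 : Type} (c : LnT F → 𝒞)
    (w : ℕ) (μ h e c₀ : ℝ) (N₀ : ℕ) : Prop :=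
  ∀ B : F.Ω → Prop, Sub B A → c₀ * Pe F.p A ≤ Pe F.p B → ∀ i j : ℕ, i ≤ j → j ≤ N₀ →
    CH (Pool.Agent.H49.Ent.cond F.p B True)
      (fun ω => ⌊pj F R w 0 ω / 2 ^ ((μ * i / N₀) * J)⌋)
      (fun ω => (⌊pj F R w 0 ω / 2 ^ ((μ * j / N₀) * J)⌋,
        (⌊pj F R₂ w 0 ω / 1⌋, (c (slam F w ω), F.W ω)))) ≤
      ((1 - h) * (μ * j / N₀ - μ * i / N₀) * Real.log 2 + e) * J

/-- **`all_jets` over the path of another coordinate.** -/
theorem aj_over (D : ℕ) (hD : 1 ≤ D) {h : ℝ} (hh : 0 < h) (hh1 : h ≤ 1) {ε : ℝ} (hε : 0 < ε) :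
    ∃ δ : ℝ, 0 < δ ∧ ∃ c₀ : ℝ, 0 < c₀ ∧ ∃ N₀ : ℕ, 0 < N₀ ∧
    ∀ {w μ : ℝ} (_ : 0 ≤ w) (_ : 0 < μ) (_ : w + μ ≤ 1),
    ∃ J₀ : ℕ, ∀ J ≥ J₀, ∀ {m : ℕ} (F : Fam m J) (A : F.Ω → Prop) (_ : 0 < Pe F.p A)
      (R R₂ : LnT F → Polynomial ℝ) {𝒞 Γ : Type} (c : LnT F → 𝒞) (Y : F.Ω → Γ),
    AjH F A R c Y D ⌊w * J⌋₊ μ δ → (∀ x, (R₂ x).natDegree ≤ D) →
    (∀ j ≤ D, CH (Pool.Agent.H49.Ent.cond F.p A True)
      (fun ω => ⌊pj F R₂ ⌊w * J⌋₊ j ω⌋) Y ≤ δ * μ * J) →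
    NF1 F A R R₂ c ⌊w * J⌋₊ μ h (δ * μ) c₀ N₀ →
    CH (Pool.Agent.H49.Ent.cond F.p A True)
      (fun ω => ⌊pj F R ⌊w * J⌋₊ 1 ω / 2 ^ (ε * μ * J)⌋) Y ≤ ε * μ * J := by
  obtain ⟨δ₁, hδ₁, c₀, hc₀, N₀, hN₀, H⟩ := all_jets D hD hh hh1 hε
  obtain ⟨C₁, hC₁, hcf⟩ := cfl_few D
  obtain ⟨C₂, hC₂, hvl⟩ := val_few D
  have hD0 : (0 : ℝ) ≤ D := Nat.cast_nonneg D
  obtain ⟨δ, hδ⟩ : ∃ δ : ℝ, δ = δ₁ / (D + 3) := ⟨_, rfl⟩
  have hδ0 : 0 < δ := by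
    rw [hδ]
    positivity
  have hδa : (D + 3) * δ = δ₁ := by
    rw [hδ]
    field_simp
  have hδb : δ ≤ δ₁ := by nlinarith
  refine ⟨δ, hδ0, c₀, hc₀, N₀, hN₀, ?_⟩
  intro w μ hw hμ hwμ
  obtain ⟨J₁, H⟩ := H (w := w) (μ := μ) hw hμ hwμ
  obtain ⟨J₂, hJ₂⟩ := exists_nat_ge ((C₁ + C₂) / (δ * μ))
  refine ⟨max J₁ J₂, ?_⟩
  intro J hJ m F A hA R R₂ 𝒞 Γ c Y HA hdeg hjet hnf
  have hJ0 : (0 : ℝ) ≤ J := Nat.cast_nonneg J
  have k1 : C₁ + C₂ ≤ δ * μ * J := by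
    have h1 : (C₁ + C₂) / (δ * μ) ≤ J := hJ₂.trans (by exact_mod_cast (le_max_right _ _).trans hJ)
    rw [div_le_iff₀ (by positivity)] at h1
    linarith
  have hq'l : IsLaw (Pool.Agent.H49.Ent.cond F.p A True) := isLaw_cond F.isLaw hA
  have h0 := hq'l.nonneg
  obtain ⟨c₂, hc₂⟩ : ∃ c₂ : LnT F → 𝒞 × (Fin (D + 1) → ℤ), c₂ = fun x => (c x, cfl F D R₂ x) :=
    ⟨_, rfl⟩
  have hkey : ∀ ω ω', 0 < Pool.Agent.H49.Ent.cond F.p A True ω →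
      0 < Pool.Agent.H49.Ent.cond F.p A True ω' → Y ω = Y ω' → F.T ω = F.T ω' :=
    fun ω ω' hω hω' e => (HA.key ω ω' (of_cond_pos hω) (of_cond_pos hω') e).1
  have g1 : 0 ≤ δ * μ * J := by positivity
  have key := H J ((le_max_left _ _).trans hJ) F A hA R c₂ Y
    ⟨HA.deg, by
      have h1 : δ * μ * J ≤ δ₁ * μ * J := by gcongr
      linarith [HA.tim], HA.key, by
      rw [hc₂]
      have h1 := CH_subadd h0 (fun ω => c (slam F ⌊w * J⌋₊ ω))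
        (fun ω => cfl F D R₂ (slam F ⌊w * J⌋₊ ω)) Y
      have h2 := hcf F hq'l R₂ ⌊w * J⌋₊ Y (δ * μ * J) hdeg hkey hjet
      have h3 := HA.ctx
      have e1 : δ₁ * μ * J = (D + 3) * (δ * μ * J) := by
        rw [← hδa]
        ring
      rw [e1]
      refine h1.trans ?_
      linarith, HA.hgt.trans (by gcongr), fun j hj h0' => (HA.nat j hj h0').trans (by gcongr)⟩ ?_
  · have h1 := CH_mono_left (W := Y) (X' := fun ω =>
      (fun j : Fin (D + 1) => ⌊pj F R ⌊w * J⌋₊ j ω / 2 ^ (ε * μ * J)⌋,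
        fun j : Fin (D + 1) => ⌊(R (slam F ⌊w * J⌋₊ ω)).coeff j / 2 ^ (ε * μ * J)⌋))
      (X := fun ω => ⌊pj F R ⌊w * J⌋₊ 1 ω / 2 ^ (ε * μ * J)⌋) h0 (by
        intro ω ω' _ _ e
        simp only [Prod.mk.injEq] at e
        exact congrFun e.1.1 (⟨1, by omega⟩ : Fin (D + 1)))
    exact h1.trans key
  · intro B hB hm i j hij hj
    have hPB : 0 < Pe F.p B := lt_of_lt_of_le (by positivity) hm
    have hBl : IsLaw (Pool.Agent.H49.Ent.cond F.p B True) := isLaw_cond F.isLaw hPB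
    have hB0 := hBl.nonneg
    have h1 := hnf B hB hm i j hij hj
    obtain ⟨X, hX⟩ : ∃ X : F.Ω → ℤ, X = fun ω =>
      ⌊pj F R ⌊w * J⌋₊ 0 ω / 2 ^ ((μ * i / N₀) * J)⌋ := ⟨_, rfl⟩
    obtain ⟨X', hX'⟩ : ∃ X' : F.Ω → ℤ, X' = fun ω =>
      ⌊pj F R ⌊w * J⌋₊ 0 ω / 2 ^ ((μ * j / N₀) * J)⌋ := ⟨_, rfl⟩
    have e1 := CH_le_add hB0 X (fun ω => ⌊pj F R₂ ⌊w * J⌋₊ 0 ω / 1⌋)
      (fun ω => (X' ω, (c₂ (slam F ⌊w * J⌋₊ ω), F.W ω)))
    have e2 := hvl F hBl R₂ ⌊w * J⌋₊ (fun ω => (X' ω, (c₂ (slam F ⌊w * J⌋₊ ω), F.W ω))) 1 le_rfl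
      hdeg (by
        intro ω ω' _ _ e
        simp only [Prod.mk.injEq] at e
        obtain ⟨-, e2, e3⟩ := e
        rw [hc₂] at e2
        exact ⟨(Prod.ext_iff.mp e3).1, (Prod.ext_iff.mp e2).2⟩)
    have e3 : CH (Pool.Agent.H49.Ent.cond F.p B True) X
        (fun ω => (⌊pj F R₂ ⌊w * J⌋₊ 0 ω / 1⌋, (X' ω, (c₂ (slam F ⌊w * J⌋₊ ω), F.W ω)))) ≤
        CH (Pool.Agent.H49.Ent.cond F.p B True) X
        (fun ω => (X' ω, (⌊pj F R₂ ⌊w * J⌋₊ 0 ω / 1⌋, (c (slam F ⌊w * J⌋₊ ω), F.W ω)))) := by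
      refine CH_mono_cond hB0 fun ω ω' _ _ e => ?_
      simp only [Prod.mk.injEq] at e ⊢
      obtain ⟨e1, e2, e3, e4⟩ := e
      rw [hc₂] at e3
      exact ⟨e2, e1, (Prod.ext_iff.mp e3).1, e4⟩
    have h1' : CH (Pool.Agent.H49.Ent.cond F.p B True) X
        (fun ω => (X' ω, (⌊pj F R₂ ⌊w * J⌋₊ 0 ω / 1⌋, (c (slam F ⌊w * J⌋₊ ω), F.W ω)))) ≤
        ((1 - h) * (μ * j / N₀ - μ * i / N₀) * Real.log 2 + δ * μ) * J := by
      rw [hX, hX']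
      exact h1
    suffices hs : CH (Pool.Agent.H49.Ent.cond F.p B True) X
        (fun ω => (X' ω, (c₂ (slam F ⌊w * J⌋₊ ω), F.W ω))) ≤
        ((1 - h) * (μ * j / N₀ - μ * i / N₀) * Real.log 2 + δ₁ * μ) * J by
      rw [hX, hX'] at hs
      exact hs
    have e4 : ((1 - h) * (μ * j / N₀ - μ * i / N₀) * Real.log 2 + δ₁ * μ) * J =
        ((1 - h) * (μ * j / N₀ - μ * i / N₀) * Real.log 2 + δ * μ) * J + (D + 2) * (δ * μ * J) := by
      rw [← hδa]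
      ring
    rw [e4]
    have h5 : 0 ≤ (D : ℝ) * (δ * μ * J) := by positivity
    linarith

/-- The rows of `R` (`a` digits per unit of radius) are not full given `R₂` (`a₂` digits per unit
of radius) of the same radius, the context and the time, on all large events. -/
def NFo (F : Fam m J) (A : F.Ω → Prop) (R R₂ : LnT F → Polynomial ℝ) {𝒞 : Type} (c : LnT F → 𝒞)
    (w : ℕ) (a a₂ μ h e c₀ : ℝ) : Prop :=
  ∀ B : F.Ω → Prop, Sub B A → c₀ * Pe F.p A ≤ Pe F.p B → ∀ g₂ g₁ : ℝ, 0 ≤ g₂ → g₂ ≤ g₁ → g₁ ≤ μ →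
    CH (Pool.Agent.H49.Ent.cond F.p B True)
      (fun ω => ⌊pj F R w 0 ω / 2 ^ ((a * g₂) * J)⌋)
      (fun ω => (⌊pj F R w 0 ω / 2 ^ ((a * g₁) * J)⌋,
        (⌊pj F R₂ w 0 ω / 2 ^ ((a₂ * g₂) * J)⌋, (c (slam F w ω), F.W ω)))) ≤
      ((a - h) * (g₁ - g₂) * Real.log 2 + e) * J

theorem NFo.mono {F : Fam m J} {A : F.Ω → Prop} {R R₂ : LnT F → Polynomial ℝ} {𝒞 : Type}
    {c : LnT F → 𝒞} {w : ℕ} {a a₂ μ μ' h e e' c₀ c₁ : ℝ} (H : NFo F A R R₂ c w a a₂ μ h e c₀)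
    (hμ : μ' ≤ μ) (he : e ≤ e') (hc : c₀ ≤ c₁) : NFo F A R R₂ c w a a₂ μ' h e' c₁ := by
  intro B hB hm g₂ g₁ h2 h21 h1
  refine (H B hB ?_ g₂ g₁ h2 h21 (h1.trans hμ)).trans ?_
  · exact (mul_le_mul_of_nonneg_right hc (Pe_nonneg F.isLaw A)).trans hm
  · refine mul_le_mul_of_nonneg_right ?_ (Nat.cast_nonneg _)
    linarith

/-- The rows on shorter windows, in coarser units. -/
theorem nf1_of {F : Fam m J} {A : F.Ω → Prop} (hA : 0 < Pe F.p A) {R R₂ : LnT F → Polynomial ℝ}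
    {𝒞 : Type} {c : LnT F → 𝒞} {W y' : ℕ} (hW : W + y' ≤ J) {a a₂ μ h e e' c₀ s s₂ μ₁ : ℝ} {N₀ : ℕ}
    (ha : 0 < a) (ha₂ : 0 < a₂) (hc₀ : 0 < c₀) (hs : 0 ≤ s) (hμ₁ : 0 < μ₁) (hN : 0 < N₀)
    (hsμ : s + μ₁ ≤ a * μ) (hs₂ : a * s₂ ≤ a₂ * s)
    (H : NFo F A R R₂ c W a a₂ μ h e c₀) (he : e * J + Real.log 5 ≤ e' * J) :
    NF1 F A (rcp F R y' (2 ^ (-(s * J)))) (rcp F R₂ y' (2 ^ (-(s₂ * J))))
      (fun x => c (lng F y' x)) (W + y') μ₁ (h / a) e' c₀ N₀ := by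
  intro B hB hm i j hij hj
  have hN0 : (0 : ℝ) < N₀ := by exact_mod_cast hN
  have hJ0 : (0 : ℝ) ≤ J := Nat.cast_nonneg J
  have hPB : 0 < Pe F.p B := lt_of_lt_of_le (by positivity) hm
  have hBl : IsLaw (Pool.Agent.H49.Ent.cond F.p B True) := isLaw_cond F.isLaw hPB
  obtain ⟨x₂, hx₂⟩ : ∃ x₂ : ℝ, x₂ = μ₁ * i / N₀ := ⟨_, rfl⟩
  obtain ⟨x₁, hx₁⟩ : ∃ x₁ : ℝ, x₁ = μ₁ * j / N₀ := ⟨_, rfl⟩
  have k2 : 0 ≤ x₂ := by rw [hx₂]; positivity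
  have k21 : x₂ ≤ x₁ := by
    rw [hx₁, hx₂]
    have : (i : ℝ) ≤ j := by exact_mod_cast hij
    gcongr
  have k1 : x₁ ≤ μ₁ := by
    rw [hx₁, div_le_iff₀ hN0]
    have : (j : ℝ) ≤ N₀ := by exact_mod_cast hj
    nlinarith
  have h1 := H B hB hm ((s + x₂) / a) ((s + x₁) / a) (by positivity) (by gcongr) (by
    rw [div_le_iff₀ ha]
    linarith)
  have ea : ∀ x : ℝ, a * ((s + x) / a) = s + x := fun x => by field_simp
  rw [ea, ea] at h1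
  have hj0 : ∀ (R' : LnT F → Polynomial ℝ) (lam : ℝ) (ω : F.Ω),
      pj F (rcp F R' y' lam) (W + y') 0 ω = lam * pj F R' W 0 ω := by
    intro R' lam ω
    rw [rcp_jet F R' hW lam 0 ω, pow_zero, mul_one]
  have e1 : ∀ (x : ℝ) (ω : F.Ω), pj F (rcp F R y' (2 ^ (-(s * J)))) (W + y') 0 ω / 2 ^ (x * J) =
      pj F R W 0 ω / 2 ^ ((s + x) * J) := by
    intro x ω
    rw [hj0, add_mul, Real.rpow_add (by norm_num), Real.rpow_neg (by norm_num)]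
    have p1 : (0 : ℝ) < 2 ^ (s * J) := Real.rpow_pos_of_pos (by norm_num) _
    have p2 : (0 : ℝ) < 2 ^ (x * J) := Real.rpow_pos_of_pos (by norm_num) _
    field_simp
  have e2 : ∀ ω : F.Ω, pj F (rcp F R₂ y' (2 ^ (-(s₂ * J)))) (W + y') 0 ω / 1 =
      pj F R₂ W 0 ω / 2 ^ (s₂ * J) := by
    intro ω
    rw [hj0, div_one, Real.rpow_neg (by norm_num), div_eq_inv_mul]
  have e3 : ∀ ω : F.Ω, c (lng F y' (slam F (W + y') ω)) = c (slam F W ω) := fun ω => by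
    rw [lng_slam F hW]
  have h2 := coarse hBl (fun ω => ⌊pj F R W 0 ω / 2 ^ ((s + x₂) * J)⌋) (fun ω => pj F R₂ W 0 ω)
    (fun ω => ⌊pj F R W 0 ω / 2 ^ ((s + x₁) * J)⌋) (fun ω => (c (slam F W ω), F.W ω))
    (s₁ := 2 ^ (s₂ * J)) (s₂ := 2 ^ ((a₂ * ((s + x₂) / a)) * J))
    (Real.rpow_pos_of_pos (by norm_num) _) (by
      refine Real.rpow_le_rpow_of_exponent_le (by norm_num) (mul_le_mul_of_nonneg_right ?_ hJ0)
      rw [mul_div_assoc', le_div_iff₀ ha]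
      nlinarith)
  have e4 : (fun ω => ⌊pj F (rcp F R y' (2 ^ (-(s * J)))) (W + y') 0 ω /
      2 ^ ((μ₁ * i / N₀) * J)⌋) = (fun ω => ⌊pj F R W 0 ω / 2 ^ ((s + x₂) * J)⌋) :=
    funext fun ω => by rw [← hx₂, e1]
  have e5 : (fun ω => (⌊pj F (rcp F R y' (2 ^ (-(s * J)))) (W + y') 0 ω /
      2 ^ ((μ₁ * j / N₀) * J)⌋, (⌊pj F (rcp F R₂ y' (2 ^ (-(s₂ * J)))) (W + y') 0 ω / 1⌋,
      ((fun x => c (lng F y' x)) (slam F (W + y') ω), F.W ω)))) =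
      (fun ω => (⌊pj F R W 0 ω / 2 ^ ((s + x₁) * J)⌋, (⌊pj F R₂ W 0 ω / 2 ^ (s₂ * J)⌋,
        (c (slam F W ω), F.W ω)))) :=
    funext fun ω => by
      dsimp only
      rw [← hx₁, e1, e2, e3]
  rw [e4, e5]
  refine h2.trans ?_
  have e6 : (a - h) * ((s + x₁) / a - (s + x₂) / a) = (1 - h / a) * (x₁ - x₂) := by
    field_simp
    ring
  rw [e6] at h1
  rw [← hx₁, ← hx₂]
  have e7 : ((1 - h / a) * (x₁ - x₂) * Real.log 2 + e') * J =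
      (1 - h / a) * (x₁ - x₂) * Real.log 2 * J + e' * J := by ring
  have e8 : ((1 - h / a) * (x₁ - x₂) * Real.log 2 + e) * J =
      (1 - h / a) * (x₁ - x₂) * Real.log 2 * J + e * J := by ring
  rw [e8] at h1
  rw [e7]
  linarith

/-- The hypotheses on the pair: values and jets of order `≥ 2` few bits, first jets natural. -/
structure PjH (F : Fam m J) (A : F.Ω → Prop) (Ru Rz : LnT F → Polynomial ℝ) {𝒞 Γ : Type}
    (c : LnT F → 𝒞) (Y : F.Ω → Γ) (D w : ℕ) (a b μ δ : ℝ) : Prop where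
  degu : ∀ x, (Ru x).natDegree ≤ D
  degz : ∀ x, (Rz x).natDegree ≤ D
  tim : (J : ℝ) * Real.log 2 - δ * μ * J ≤
      CH (Pool.Agent.H49.Ent.cond F.p A True) F.T (fun ω => (F.l ω, F.Z ω))
  key : ∀ ω ω', A ω → A ω' → Y ω = Y ω' → F.T ω = F.T ω' ∧ F.Z ω = F.Z ω'
  ctx : CH (Pool.Agent.H49.Ent.cond F.p A True) (fun ω => c (slam F w ω)) Y ≤ δ * μ * J
  valu : CH (Pool.Agent.H49.Ent.cond F.p A True) (fun ω => ⌊pj F Ru w 0 ω⌋) Y ≤ δ * μ * J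
  valz : CH (Pool.Agent.H49.Ent.cond F.p A True) (fun ω => ⌊pj F Rz w 0 ω⌋) Y ≤ δ * μ * J
  jetu : ∀ j ≤ D, 2 ≤ j → CH (Pool.Agent.H49.Ent.cond F.p A True)
      (fun ω => ⌊pj F Ru w j ω⌋) Y ≤ δ * μ * J
  jetz : ∀ j ≤ D, 2 ≤ j → CH (Pool.Agent.H49.Ent.cond F.p A True)
      (fun ω => ⌊pj F Rz w j ω⌋) Y ≤ δ * μ * J
  firu : CH (Pool.Agent.H49.Ent.cond F.p A True)
      (fun ω => ⌊pj F Ru w 1 ω / 2 ^ ((a * μ) * J)⌋) Y ≤ δ * μ * J
  firz : CH (Pool.Agent.H49.Ent.cond F.p A True)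
      (fun ω => ⌊pj F Rz w 1 ω / 2 ^ ((b * μ) * J)⌋) Y ≤ δ * μ * J

/-- Change of units, one function. -/
theorem chg {Ω Γ : Type} [Fintype Ω] {q : Ω → ℝ} (hq : IsLaw q) (f g : Ω → ℝ) (Y : Ω → Γ)
    {μ lam : ℝ} (hμ : 0 < μ) (hl : 0 ≤ lam) (hB : lam * μ ≤ 2) (hg : ∀ ω, g ω = lam * f ω) :
    CH q (fun ω => ⌊g ω⌋) Y ≤ CH q (fun ω => ⌊f ω / μ⌋) Y + Real.log 7 := by
  have h1 := conv hq f g Y (μ := μ) (lam := lam) (B := 2) hμ (by exact_mod_cast hB) hl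
    (fun ω ω' _ _ _ => by
      rw [hg, hg, ← mul_sub, abs_mul, abs_of_nonneg hl])
  have e : Real.log (2 * (((2 : ℕ) : ℝ) + 1) + 1) = Real.log 7 := by norm_num
  rw [e] at h1
  exact h1

/-- **One step**: window shorter by `y`, units `2 ^ s`, `2 ^ s₂`, block `μ₁`. -/
theorem pstep (D : ℕ) (hD : 1 ≤ D) {a a₂ : ℝ} (ha : 0 < a) (ha₂ : 0 < a₂) {h : ℝ} (hh : 0 < h)
    (hha : h ≤ a) {ε : ℝ} (hε : 0 < ε) :
    ∃ δ : ℝ, 0 < δ ∧ ∃ c₀ : ℝ, 0 < c₀ ∧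
    ∀ {w y s s₂ μ μ₁ e₁ e₂ : ℝ} (_ : 0 ≤ w) (_ : 0 ≤ y) (_ : 0 ≤ s) (_ : 0 ≤ s₂) (_ : 0 < μ₁)
      (_ : w + y + μ₁ ≤ 1) (_ : s + μ₁ ≤ a * μ) (_ : a * s₂ ≤ a₂ * s) (_ : e₁ ≤ s + y + μ₁)
      (_ : e₂ ≤ s₂ + y),
    ∃ J₀ : ℕ, ∀ J ≥ J₀, ∀ {m : ℕ} (F : Fam m J) (A : F.Ω → Prop) (_ : 0 < Pe F.p A)
      (R R₂ : LnT F → Polynomial ℝ) {𝒞 Γ : Type} (c : LnT F → 𝒞) (Y : F.Ω → Γ),
    (∀ x, (R x).natDegree ≤ D) → (∀ x, (R₂ x).natDegree ≤ D) →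
    ((J : ℝ) * Real.log 2 - δ * μ₁ * J ≤
      CH (Pool.Agent.H49.Ent.cond F.p A True) F.T (fun ω => (F.l ω, F.Z ω))) →
    (∀ ω ω', A ω → A ω' → Y ω = Y ω' → F.T ω = F.T ω' ∧ F.Z ω = F.Z ω') →
    CH (Pool.Agent.H49.Ent.cond F.p A True) (fun ω => c (slam F ⌊w * J⌋₊ ω)) Y ≤ δ * μ₁ * J →
    (∀ j ≤ D, j ≠ 1 → CH (Pool.Agent.H49.Ent.cond F.p A True)
      (fun ω => ⌊pj F R ⌊w * J⌋₊ j ω⌋) Y ≤ δ * μ₁ * J) →
    (∀ j ≤ D, j ≠ 1 → CH (Pool.Agent.H49.Ent.cond F.p A True)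
      (fun ω => ⌊pj F R₂ ⌊w * J⌋₊ j ω⌋) Y ≤ δ * μ₁ * J) →
    CH (Pool.Agent.H49.Ent.cond F.p A True)
      (fun ω => ⌊pj F R ⌊w * J⌋₊ 1 ω / 2 ^ (e₁ * J)⌋) Y ≤ δ * μ₁ * J →
    CH (Pool.Agent.H49.Ent.cond F.p A True)
      (fun ω => ⌊pj F R₂ ⌊w * J⌋₊ 1 ω / 2 ^ (e₂ * J)⌋) Y ≤ δ * μ₁ * J →
    NFo F A R R₂ c ⌊w * J⌋₊ a a₂ μ h (δ * μ₁) c₀ →
    CH (Pool.Agent.H49.Ent.cond F.p A True)
      (fun ω => ⌊pj F R ⌊w * J⌋₊ 1 ω / 2 ^ ((s + y + ε * μ₁) * J)⌋) Y ≤ ε * μ₁ * J := by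
  obtain ⟨δ₁, hδ₁, c₀, hc₀, N₀, hN₀, H⟩ := aj_over D hD (h := h / a) (by positivity)
    (by rw [div_le_one ha]; exact hha) (half_pos hε)
  obtain ⟨δ, hδ⟩ : ∃ δ : ℝ, δ = min (δ₁ / 4) (ε / 2) := ⟨_, rfl⟩
  have hδ0 : 0 < δ := by
    rw [hδ]
    exact lt_min (by positivity) (by positivity)
  have hδ1 : 4 * δ ≤ δ₁ := by
    have : δ ≤ δ₁ / 4 := by
      rw [hδ]
      exact min_le_left _ _
    linarith
  have hδ2 : δ ≤ ε / 2 := by
    rw [hδ]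
    exact min_le_right _ _
  refine ⟨δ, hδ0, c₀, hc₀, ?_⟩
  intro w y s s₂ μ μ₁ e₁ e₂ hw hy hs hs₂ hμ₁ hwμ hsμ hss he₁ he₂
  obtain ⟨J₁, H⟩ := H (w := w + y) (μ := μ₁) (by positivity) hμ₁ hwμ
  obtain ⟨J₂, hJ₂⟩ := exists_nat_ge (Real.log 7 / (δ * μ₁))
  refine ⟨max J₁ J₂, ?_⟩
  intro J hJ m F A hA R R₂ 𝒞 Γ c Y hdeg hdeg₂ htim hkey hctx hjet hjet₂ hfir hfir₂ hnf
  have hJ0 : (0 : ℝ) ≤ J := Nat.cast_nonneg J
  have k7 : Real.log 7 ≤ δ * μ₁ * J := by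
    have h1 : Real.log 7 / (δ * μ₁) ≤ J :=
      hJ₂.trans (by exact_mod_cast (le_max_right _ _).trans hJ)
    rw [div_le_iff₀ (by positivity)] at h1
    linarith
  have l7 : 0 ≤ Real.log 7 := Real.log_nonneg (by norm_num)
  have k5 : Real.log 5 ≤ δ * μ₁ * J :=
    (Real.log_le_log (by norm_num) (by norm_num)).trans k7
  have hq'l : IsLaw (Pool.Agent.H49.Ent.cond F.p A True) := isLaw_cond F.isLaw hA
  have g0 : 0 ≤ δ * μ₁ * J := by positivity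
  have g4 : 4 * (δ * μ₁ * J) ≤ δ₁ * μ₁ * J := by
    have h2 := mul_le_mul_of_nonneg_right hδ1 (by positivity : 0 ≤ μ₁ * J)
    have e1 : 4 * δ * (μ₁ * J) = 4 * (δ * μ₁ * J) := by ring
    have e2 : δ₁ * (μ₁ * J) = δ₁ * μ₁ * J := by ring
    rw [e1, e2] at h2
    exact h2
  -- the windows
  have hw1 : ((⌊w * J⌋₊ : ℕ) : ℝ) ≤ w * J := Nat.floor_le (by positivity)
  have hw2 : w * J < (⌊w * J⌋₊ : ℕ) + 1 := Nat.lt_floor_add_one _
  have hw3 : ((⌊(w + y) * J⌋₊ : ℕ) : ℝ) ≤ (w + y) * J := Nat.floor_le (by positivity)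
  have hw4 : (w + y) * J < (⌊(w + y) * J⌋₊ : ℕ) + 1 := Nat.lt_floor_add_one _
  have hle : ⌊w * J⌋₊ ≤ ⌊(w + y) * J⌋₊ := Nat.floor_le_floor (by
    have : 0 ≤ y * J := by positivity
    nlinarith)
  specialize H J ((le_max_left _ _).trans hJ) F A hA
  obtain ⟨W, hW⟩ : ∃ W : ℕ, W = ⌊w * J⌋₊ := ⟨_, rfl⟩
  rw [← hW] at hw1 hw2 hle hctx hjet hjet₂ hfir hfir₂ hnf ⊢
  obtain ⟨y', hy'⟩ : ∃ y' : ℕ, ⌊(w + y) * J⌋₊ = W + y' :=
    ⟨⌊(w + y) * J⌋₊ - W, by omega⟩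
  have hWJ : W + y' ≤ J := by
    have h1 : ((W + y' : ℕ) : ℝ) ≤ J := by
      rw [← hy']
      have h2 : w + y ≤ 1 := by linarith
      have : (w + y) * J ≤ 1 * J := mul_le_mul_of_nonneg_right h2 hJ0
      linarith
    exact_mod_cast h1
  rw [hy'] at hw3 hw4 H
  push_cast at hw3 hw4
  have y1 : y * J ≤ y' + 1 := by nlinarith
  have y2 : (y' : ℝ) ≤ y * J + 1 := by nlinarith
  have hfac : (1 / (2 : ℝ) ^ y') = 2 ^ (-(y' : ℝ)) := by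
    rw [one_div, Real.rpow_neg (by norm_num), Real.rpow_natCast]
  have rp : ∀ x : ℝ, (0 : ℝ) < 2 ^ x := fun x => Real.rpow_pos_of_pos (by norm_num) x
  have le2 : ∀ x : ℝ, x ≤ 1 → (2 : ℝ) ^ x ≤ 2 := fun x hx => by
    calc (2 : ℝ) ^ x ≤ 2 ^ (1 : ℝ) := Real.rpow_le_rpow_of_exponent_le (by norm_num) hx
      _ = 2 := Real.rpow_one 2
  have hpow1 : ∀ j : ℕ, (1 / (2 : ℝ) ^ y') ^ j ≤ 1 := by
    intro j
    refine pow_le_one₀ (by positivity) ?_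
    rw [div_le_one (by positivity)]
    exact one_le_pow₀ (by norm_num)
  have one' : ∀ (f : F.Ω → ℝ), CH (Pool.Agent.H49.Ent.cond F.p A True) (fun ω => ⌊f ω / 1⌋) Y =
      CH (Pool.Agent.H49.Ent.cond F.p A True) (fun ω => ⌊f ω⌋) Y := by
    intro f
    simp only [div_one]
  -- jets at unit precision on the short window
  have short : ∀ (R : LnT F → Polynomial ℝ) (x x' : ℝ) (j : ℕ), 0 ≤ x → 0 ≤ x' →
      CH (Pool.Agent.H49.Ent.cond F.p A True) (fun ω => ⌊pj F R W j ω⌋) Y ≤ δ * μ₁ * J →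
      CH (Pool.Agent.H49.Ent.cond F.p A True)
      (fun ω => ⌊pj F (rcp F R y' (2 ^ (-(x * J)))) (W + y') j ω / 2 ^ (x' * J)⌋) Y ≤
        2 * (δ * μ₁ * J) := by
    intro R x x' j hx hx' h1
    have h2 := chg hq'l (fun ω => pj F R W j ω)
      (fun ω => pj F (rcp F R y' (2 ^ (-(x * J)))) (W + y') j ω / 2 ^ (x' * J)) Y (μ := 1)
      (lam := 2 ^ (-(x * J)) * (1 / 2 ^ y') ^ j / 2 ^ (x' * J)) one_pos (by positivity) (by
        rw [mul_one, div_le_iff₀ (rp _)]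
        have i1 : (2 : ℝ) ^ (-(x * J)) ≤ 1 :=
          Real.rpow_le_one_of_one_le_of_nonpos (by norm_num) (by
            have : 0 ≤ x * J := by positivity
            linarith)
        have i2 : (1 : ℝ) ≤ 2 ^ (x' * J) := Real.one_le_rpow (by norm_num) (by positivity)
        have i3 : 2 ^ (-(x * J)) * (1 / (2 : ℝ) ^ y') ^ j ≤ 1 * 1 :=
          mul_le_mul i1 (hpow1 j) (by positivity) zero_le_one
        linarith)
      (fun ω => by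
        rw [rcp_jet F R hWJ]
        ring)
    rw [one'] at h2
    linarith
  -- the first jets
  have first : ∀ (R : LnT F → Polynomial ℝ) (x x' e : ℝ), e ≤ x + y + x' →
      CH (Pool.Agent.H49.Ent.cond F.p A True)
        (fun ω => ⌊pj F R W 1 ω / 2 ^ (e * J)⌋) Y ≤ δ * μ₁ * J →
      CH (Pool.Agent.H49.Ent.cond F.p A True)
      (fun ω => ⌊pj F (rcp F R y' (2 ^ (-(x * J)))) (W + y') 1 ω / 2 ^ (x' * J)⌋) Y ≤
        2 * (δ * μ₁ * J) := by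
    intro R x x' e he h1
    have h2 := chg hq'l (fun ω => pj F R W 1 ω)
      (fun ω => pj F (rcp F R y' (2 ^ (-(x * J)))) (W + y') 1 ω / 2 ^ (x' * J)) Y
      (μ := 2 ^ (e * J)) (lam := 2 ^ (-(x * J)) * 2 ^ (-(y' : ℝ)) * 2 ^ (-(x' * J))) (rp _)
      (by positivity) (by
        rw [← Real.rpow_add (by norm_num), ← Real.rpow_add (by norm_num),
          ← Real.rpow_add (by norm_num)]
        refine le2 _ ?_
        have h7 := mul_le_mul_of_nonneg_right he hJ0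
        linarith)
      (fun ω => by
        rw [rcp_jet F R hWJ, pow_one, hfac, div_eq_mul_inv, Real.rpow_neg (by norm_num) (x' * J)]
        ring)
    linarith
  have zero' : ∀ (R : LnT F → Polynomial ℝ) (j : ℕ), CH (Pool.Agent.H49.Ent.cond F.p A True)
      (fun ω => ⌊pj F R (W + y') j ω / 2 ^ ((0 : ℝ) * J)⌋) Y =
      CH (Pool.Agent.H49.Ent.cond F.p A True) (fun ω => ⌊pj F R (W + y') j ω⌋) Y := by
    intro R j
    simp only [zero_mul, Real.rpow_zero, div_one]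
  have key := H (rcp F R y' (2 ^ (-(s * J)))) (rcp F R₂ y' (2 ^ (-(s₂ * J))))
    (fun x => c (lng F y' x)) Y
    ⟨natDegree_rcp F hdeg _ _, by linarith, hkey, by
      simp only [lng_slam F hWJ]
      linarith, by
      have h1 := short R s 0 0 hs le_rfl (hjet 0 (Nat.zero_le _) (by norm_num))
      rw [zero'] at h1
      linarith, by
      intro j hj h0
      by_cases h1 : j = 1
      · subst h1
        have h2 := first R s μ₁ e₁ (by linarith) hfir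
        linarith
      · have h2 := short R s μ₁ j hs hμ₁.le (hjet j hj h1)
        linarith⟩ (natDegree_rcp F hdeg₂ _ _) (by
      intro j hj
      by_cases h1 : j = 1
      · subst h1
        have h2 := first R₂ s₂ 0 e₂ (by linarith) hfir₂
        rw [zero'] at h2
        linarith
      · have h2 := short R₂ s₂ 0 j hs₂ le_rfl (hjet₂ j hj h1)
        rw [zero'] at h2
        linarith)
    (nf1_of hA hWJ ha ha₂ hc₀ hs hμ₁ hN₀ hsμ hss hnf (by linarith))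
  -- back to the long window
  have h2 := chg hq'l (fun ω => pj F (rcp F R y' (2 ^ (-(s * J)))) (W + y') 1 ω)
    (fun ω => pj F R W 1 ω / 2 ^ ((s + y + ε * μ₁) * J)) Y (μ := 2 ^ (ε / 2 * μ₁ * J))
    (lam := 2 ^ (s * J) * 2 ^ (y' : ℝ) * 2 ^ (-((s + y + ε * μ₁) * J))) (rp _) (by positivity) (by
      rw [← Real.rpow_add (by norm_num), ← Real.rpow_add (by norm_num),
        ← Real.rpow_add (by norm_num)]
      refine le2 _ ?_
      have : 0 ≤ ε * μ₁ * J := by positivity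
      nlinarith)
    (fun ω => by
      rw [rcp_jet F R hWJ, pow_one, hfac, Real.rpow_neg (by norm_num) (s * J),
        Real.rpow_neg (by norm_num) (y' : ℝ), Real.rpow_neg (by norm_num), div_eq_mul_inv]
      have p1 := (rp (s * J)).ne'
      have p2 := (rp (y' : ℝ)).ne'
      field_simp)
  have e9 : ε * μ₁ * J = ε / 2 * μ₁ * J + ε / 2 * μ₁ * J := by ring
  have h8 : δ * μ₁ * J ≤ ε / 2 * μ₁ * J := by gcongr
  rw [e9]
  linarith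

/-- Coarser units. -/
theorem crs {Ω Γ : Type} [Fintype Ω] {q : Ω → ℝ} (hq : IsLaw q) (f : Ω → ℝ) (Y : Ω → Γ) {J : ℕ}
    {x x' : ℝ} (h : x ≤ x') :
    CH q (fun ω => ⌊f ω / 2 ^ (x' * J)⌋) Y ≤ CH q (fun ω => ⌊f ω / 2 ^ (x * J)⌋) Y +
      Real.log 7 := by
  have rp : ∀ x : ℝ, (0 : ℝ) < 2 ^ x := fun x => Real.rpow_pos_of_pos (by norm_num) x
  refine chg hq f (fun ω => f ω / 2 ^ (x' * J)) Y (μ := 2 ^ (x * J)) (lam := 2 ^ (-(x' * J)))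
    (rp _) (rp _).le ?_ (fun ω => ?_)
  · rw [← Real.rpow_add (by norm_num)]
    have h1 : (2 : ℝ) ^ (-(x' * J) + x * J) ≤ 1 :=
      Real.rpow_le_one_of_one_le_of_nonpos (by norm_num) (by
        have := mul_le_mul_of_nonneg_right h (Nat.cast_nonneg J : (0 : ℝ) ≤ J)
        linarith)
    linarith
  · rw [Real.rpow_neg (by norm_num), div_eq_inv_mul]

/-- The part of the radius which is left after one round. -/
noncomputable def sg (a b : ℝ) : ℝ := (3 * b + a) / (4 * b)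

/-- **One round.** -/
theorem round (D : ℕ) (hD : 1 ≤ D) {a b : ℝ} (ha : 0 < a) (hab : a < b) {h : ℝ} (hh : 0 < h)
    (hha : h ≤ a) {ε : ℝ} (hε : 0 < ε) :
    ∃ δ : ℝ, 0 < δ ∧ ∃ c₀ : ℝ, 0 < c₀ ∧
    ∀ {w μ : ℝ} (_ : 0 ≤ w) (_ : 0 < μ) (_ : w + b * μ ≤ 1),
    ∃ J₀ : ℕ, ∀ J ≥ J₀, ∀ {m : ℕ} (F : Fam m J) (A : F.Ω → Prop) (_ : 0 < Pe F.p A)
      (Ru Rz : LnT F → Polynomial ℝ) {𝒞 Γ : Type} (c : LnT F → 𝒞) (Y : F.Ω → Γ),
    PjH F A Ru Rz c Y D ⌊w * J⌋₊ a b μ δ →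
    NFo F A Rz Ru c ⌊w * J⌋₊ b a μ h (δ * μ) c₀ → NFo F A Ru Rz c ⌊w * J⌋₊ a b μ h (δ * μ) c₀ →
    CH (Pool.Agent.H49.Ent.cond F.p A True)
      (fun ω => ⌊pj F Ru ⌊w * J⌋₊ 1 ω / 2 ^ ((a * (sg a b * μ)) * J)⌋) Y ≤ ε * μ * J ∧
    CH (Pool.Agent.H49.Ent.cond F.p A True)
      (fun ω => ⌊pj F Rz ⌊w * J⌋₊ 1 ω / 2 ^ ((b * (sg a b * μ)) * J)⌋) Y ≤ ε * μ * J := by
  have hb : 0 < b := ha.trans hab
  have hba : 0 < b - a := by linarith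
  obtain ⟨κ, hκ⟩ : ∃ κ : ℝ, κ = a * (b - a) / (2 * b) := ⟨_, rfl⟩
  have hκ0 : 0 < κ := by
    rw [hκ]
    positivity
  have hκb : κ ≤ b := by
    rw [hκ, div_le_iff₀ (by positivity)]
    nlinarith
  -- the step of `u`
  obtain ⟨δu, hδu, cu, hcu, Hu⟩ := pstep D hD ha hb hh hha
    (ε := min (1 / 2) (ε / (2 * κ))) (lt_min (by norm_num) (by positivity))
  -- the step of `z`
  obtain ⟨δz, hδz, cz, hcz, Hz⟩ := pstep D hD hb ha hh (hha.trans hab.le)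
    (ε := min (1 / 2) (min (δu * κ / 2) (ε / 4) / (b - a)))
    (lt_min (by norm_num) (div_pos (lt_min (by positivity) (by positivity)) hba))
  obtain ⟨εz, hεz⟩ : ∃ εz : ℝ, εz = min (1 / 2) (min (δu * κ / 2) (ε / 4) / (b - a)) := ⟨_, rfl⟩
  rw [← hεz] at Hz
  have hεz1 : εz ≤ 1 / 2 := by
    rw [hεz]
    exact min_le_left _ _
  have hεz4 : εz ≤ min (δu * κ / 2) (ε / 4) / (b - a) := by
    rw [hεz]
    exact min_le_right _ _
  rw [le_div_iff₀ hba] at hεz4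
  have hεz2 : εz * (b - a) ≤ δu * κ / 2 := hεz4.trans (min_le_left _ _)
  have hεz3 : εz * (b - a) ≤ ε / 4 := hεz4.trans (min_le_right _ _)
  obtain ⟨εu, hεu⟩ : ∃ εu : ℝ, εu = min (1 / 2) (ε / (2 * κ)) := ⟨_, rfl⟩
  rw [← hεu] at Hu
  have hεu1 : εu ≤ 1 / 2 := by
    rw [hεu]
    exact min_le_left _ _
  have hεu2 : εu * κ ≤ ε / 2 := by
    have : εu ≤ ε / (2 * κ) := by
      rw [hεu]
      exact min_le_right _ _
    rw [le_div_iff₀ (by positivity)] at this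
    linarith
  obtain ⟨δ, hδ⟩ : ∃ δ : ℝ, δ = min (δz * (b - a)) (min (δu * κ / 2) (ε / 4)) := ⟨_, rfl⟩
  have hδ0 : 0 < δ := by
    rw [hδ]
    exact lt_min (by positivity) (lt_min (by positivity) (by positivity))
  have hδ1 : δ ≤ δz * (b - a) := by
    rw [hδ]
    exact min_le_left _ _
  have hδ2' : δ ≤ δu * κ / 2 := by
    rw [hδ]
    exact (min_le_right _ _).trans (min_le_left _ _)
  have hδ2 : δ ≤ δu * κ := by
    have : 0 < δu * κ := by positivity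
    linarith
  have hδ3 : δ ≤ ε / 4 := by
    rw [hδ]
    exact (min_le_right _ _).trans (min_le_right _ _)
  refine ⟨δ, hδ0, min cu cz, lt_min hcu hcz, ?_⟩
  intro w μ hw hμ hwμ
  obtain ⟨Jz, Hz⟩ := Hz (w := w) (y := a * μ) (s := 0) (s₂ := 0) (μ := μ) (μ₁ := (b - a) * μ)
    (e₁ := b * μ) (e₂ := a * μ) hw (by positivity) le_rfl le_rfl (by positivity) (by linarith)
    (by nlinarith) (by simp) (by linarith) (by linarith)
  obtain ⟨g, hg⟩ : ∃ g : ℝ, g = (a + b) / (2 * b) * μ := ⟨_, rfl⟩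
  have hg0 : 0 < g := by
    rw [hg]
    positivity
  have hg1 : a * g + κ * μ = a * μ := by
    rw [hg, hκ]
    field_simp
    ring
  have hg2 : a * μ + (b - a) * μ / 2 = b * g := by
    rw [hg]
    field_simp
    ring
  have hg3 : a * (sg a b * μ) = a * g + κ * μ / 2 := by
    rw [hg, hκ]
    unfold sg
    field_simp
    ring
  have hg4 : b * g ≤ b * (sg a b * μ) := by
    rw [hg]
    unfold sg
    have : (a + b) / (2 * b) ≤ (3 * b + a) / (4 * b) := by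
      rw [div_le_div_iff₀ (by positivity) (by positivity)]
      nlinarith
    gcongr
  have hκμ : κ * μ ≤ b * μ := by gcongr
  obtain ⟨Ju, Hu⟩ := Hu (w := w) (y := 0) (s := a * g) (s₂ := b * g) (μ := μ) (μ₁ := κ * μ)
    (e₁ := a * μ) (e₂ := b * g) hw le_rfl (by positivity) (by positivity) (by positivity)
    (by linarith) (by linarith) (by linarith) (by linarith) (by linarith)
  obtain ⟨J₂, hJ₂⟩ := exists_nat_ge (Real.log 7 / (δ * μ))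
  refine ⟨max Jz (max Ju J₂), ?_⟩
  intro J hJ m F A hA Ru Rz 𝒞 Γ c Y HP hz hu
  have hJ0 : (0 : ℝ) ≤ J := Nat.cast_nonneg J
  have k7 : Real.log 7 ≤ δ * μ * J := by
    have h1 : Real.log 7 / (δ * μ) ≤ J :=
      hJ₂.trans (by exact_mod_cast ((le_max_right _ _).trans (le_max_right _ _)).trans hJ)
    rw [div_le_iff₀ (by positivity)] at h1
    linarith
  have hq'l : IsLaw (Pool.Agent.H49.Ent.cond F.p A True) := isLaw_cond F.isLaw hA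
  specialize Hz J ((le_max_left _ _).trans hJ) F A hA Rz Ru c Y HP.degz HP.degu
  specialize Hu J (((le_max_left _ _).trans (le_max_right _ _)).trans hJ) F A hA Ru Rz c Y
    HP.degu HP.degz
  have mz : ∀ x : ℝ, x ≤ δ * μ * J → x ≤ δz * ((b - a) * μ) * J := by
    intro x hx
    have h2 := mul_le_mul_of_nonneg_right hδ1 (by positivity : 0 ≤ μ * J)
    have e1 : δ * (μ * J) = δ * μ * J := by ring
    have e2 : δz * (b - a) * (μ * J) = δz * ((b - a) * μ) * J := by ring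
    rw [e1, e2] at h2
    exact hx.trans h2
  have mu : ∀ x : ℝ, x ≤ δ * μ * J → x ≤ δu * (κ * μ) * J := by
    intro x hx
    have h2 := mul_le_mul_of_nonneg_right hδ2 (by positivity : 0 ≤ μ * J)
    have e1 : δ * (μ * J) = δ * μ * J := by ring
    have e2 : δu * κ * (μ * J) = δu * (κ * μ) * J := by ring
    rw [e1, e2] at h2
    exact hx.trans h2
  have jz : ∀ j ≤ D, j ≠ 1 → CH (Pool.Agent.H49.Ent.cond F.p A True)
      (fun ω => ⌊pj F Rz ⌊w * J⌋₊ j ω⌋) Y ≤ δ * μ * J := by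
    intro j hj h1
    by_cases h0 : j = 0
    · subst h0
      exact HP.valz
    · exact HP.jetz j hj (by omega)
  have ju : ∀ j ≤ D, j ≠ 1 → CH (Pool.Agent.H49.Ent.cond F.p A True)
      (fun ω => ⌊pj F Ru ⌊w * J⌋₊ j ω⌋) Y ≤ δ * μ * J := by
    intro j hj h1
    by_cases h0 : j = 0
    · subst h0
      exact HP.valu
    · exact HP.jetu j hj (by omega)
  have hδz' : δ * μ ≤ δz * ((b - a) * μ) := by
    have := mul_le_mul_of_nonneg_right hδ1 hμ.le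
    linarith
  have hδu' : δ * μ ≤ δu * (κ * μ) := by
    have := mul_le_mul_of_nonneg_right hδ2 hμ.le
    linarith
  have z1 := Hz (by linarith [HP.tim, mz _ le_rfl]) HP.key (mz _ HP.ctx)
    (fun j hj h1 => mz _ (jz j hj h1)) (fun j hj h1 => mz _ (ju j hj h1)) (mz _ HP.firz)
    (mz _ HP.firu) (hz.mono le_rfl hδz' (min_le_right _ _))
  -- the first jet of `z`, in the units of the radius `g`
  have z2 : CH (Pool.Agent.H49.Ent.cond F.p A True)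
      (fun ω => ⌊pj F Rz ⌊w * J⌋₊ 1 ω / 2 ^ ((b * g) * J)⌋) Y ≤
      CH (Pool.Agent.H49.Ent.cond F.p A True) (fun ω => ⌊pj F Rz ⌊w * J⌋₊ 1 ω /
        2 ^ ((0 + a * μ + εz * ((b - a) * μ)) * J)⌋) Y + Real.log 7 := by
    refine crs hq'l _ Y ?_
    have h1 : εz * ((b - a) * μ) ≤ 1 / 2 * ((b - a) * μ) :=
      mul_le_mul_of_nonneg_right hεz1 (by positivity)
    linarith
  have z3 : CH (Pool.Agent.H49.Ent.cond F.p A True)
      (fun ω => ⌊pj F Rz ⌊w * J⌋₊ 1 ω / 2 ^ ((b * g) * J)⌋) Y ≤ δu * (κ * μ) * J := by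
    have h2 := mul_le_mul_of_nonneg_right hεz2 (by positivity : 0 ≤ μ * J)
    have h3 := mul_le_mul_of_nonneg_right hδ2' (by positivity : 0 ≤ μ * J)
    have e1 : εz * (b - a) * (μ * J) = εz * ((b - a) * μ) * J := by ring
    have e2 : δu * κ / 2 * (μ * J) = δu * (κ * μ) * J / 2 := by ring
    have e3 : δ * (μ * J) = δ * μ * J := by ring
    rw [e1, e2] at h2
    rw [e3, e2] at h3
    linarith
  have z4 : CH (Pool.Agent.H49.Ent.cond F.p A True)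
      (fun ω => ⌊pj F Rz ⌊w * J⌋₊ 1 ω / 2 ^ ((b * (sg a b * μ)) * J)⌋) Y ≤ ε * μ * J := by
    have h1 := crs hq'l (fun ω => pj F Rz ⌊w * J⌋₊ 1 ω) Y (J := J) hg4
    have h2 := mul_le_mul_of_nonneg_right hεz3 (by positivity : 0 ≤ μ * J)
    have h3 := mul_le_mul_of_nonneg_right hδ3 (by positivity : 0 ≤ μ * J)
    have e1 : εz * (b - a) * (μ * J) = εz * ((b - a) * μ) * J := by ring
    have e2 : ε / 4 * (μ * J) = ε * μ * J / 4 := by ring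
    have e3 : δ * (μ * J) = δ * μ * J := by ring
    rw [e1, e2] at h2
    rw [e3, e2] at h3
    have h4 : 0 ≤ ε * μ * J := by positivity
    linarith
  refine ⟨?_, z4⟩
  have u1 := Hu (by linarith [HP.tim, mu _ le_rfl]) HP.key (mu _ HP.ctx)
    (fun j hj h1 => mu _ (ju j hj h1)) (fun j hj h1 => mu _ (jz j hj h1)) (mu _ HP.firu)
    z3 (hu.mono le_rfl hδu' (min_le_left _ _))
  have u2 := crs hq'l (fun ω => pj F Ru ⌊w * J⌋₊ 1 ω) Y (J := J)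
    (x := a * g + 0 + εu * (κ * μ)) (x' := a * (sg a b * μ)) (by
      rw [hg3]
      have h1 : εu * (κ * μ) ≤ 1 / 2 * (κ * μ) :=
        mul_le_mul_of_nonneg_right hεu1 (by positivity)
      linarith)
  have h2 := mul_le_mul_of_nonneg_right hεu2 (by positivity : 0 ≤ μ * J)
  have h3 := mul_le_mul_of_nonneg_right hδ3 (by positivity : 0 ≤ μ * J)
  have e1 : εu * κ * (μ * J) = εu * (κ * μ) * J := by ring
  have e2 : ε / 4 * (μ * J) = ε * μ * J / 4 := by ring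
  have e2' : ε / 2 * (μ * J) = ε * μ * J / 2 := by ring
  have e3 : δ * (μ * J) = δ * μ * J := by ring
  rw [e1, e2'] at h2
  rw [e3, e2] at h3
  have h4 : 0 ≤ ε * μ * J := by positivity
  linarith

theorem sg_pos {a b : ℝ} (ha : 0 < a) (hb : 0 < b) : 0 < sg a b := by
  unfold sg
  positivity

theorem sg_lt {a b : ℝ} (ha : 0 < a) (hab : a < b) : sg a b < 1 := by
  unfold sg
  rw [div_lt_one (by linarith)]
  linarith

/-- The statement after `n` rounds. -/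
theorem rounds (D : ℕ) (hD : 1 ≤ D) {a b : ℝ} (ha : 0 < a) (hab : a < b) {h : ℝ} (hh : 0 < h)
    (hha : h ≤ a) (n : ℕ) {ε : ℝ} (hε : 0 < ε) :
    ∃ δ : ℝ, 0 < δ ∧ ∃ c₀ : ℝ, 0 < c₀ ∧
    ∀ {w μ : ℝ} (_ : 0 ≤ w) (_ : 0 < μ) (_ : w + b * μ ≤ 1),
    ∃ J₀ : ℕ, ∀ J ≥ J₀, ∀ {m : ℕ} (F : Fam m J) (A : F.Ω → Prop) (_ : 0 < Pe F.p A)
      (Ru Rz : LnT F → Polynomial ℝ) {𝒞 Γ : Type} (c : LnT F → 𝒞) (Y : F.Ω → Γ),
    PjH F A Ru Rz c Y D ⌊w * J⌋₊ a b μ δ →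
    NFo F A Rz Ru c ⌊w * J⌋₊ b a μ h (δ * μ) c₀ → NFo F A Ru Rz c ⌊w * J⌋₊ a b μ h (δ * μ) c₀ →
    CH (Pool.Agent.H49.Ent.cond F.p A True)
      (fun ω => ⌊pj F Ru ⌊w * J⌋₊ 1 ω / 2 ^ ((a * (sg a b ^ n * μ)) * J)⌋) Y ≤ ε * μ * J ∧
    CH (Pool.Agent.H49.Ent.cond F.p A True)
      (fun ω => ⌊pj F Rz ⌊w * J⌋₊ 1 ω / 2 ^ ((b * (sg a b ^ n * μ)) * J)⌋) Y ≤ ε * μ * J := by
  have hb : 0 < b := ha.trans hab
  have hs0 := sg_pos ha hb
  have hs1 := sg_lt ha hab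
  induction n generalizing ε with
  | zero =>
    refine ⟨ε, hε, 1, one_pos, fun {w μ} _ _ _ => ⟨0, ?_⟩⟩
    intro J _ m F A hA Ru Rz 𝒞 Γ c Y HP _ _
    rw [pow_zero, one_mul]
    exact ⟨HP.firu, HP.firz⟩
  | succ n ih =>
    obtain ⟨δr, hδr, cr, hcr, Hr⟩ := round D hD ha hab hh hha hε
    obtain ⟨r, hr⟩ : ∃ r : ℝ, r = sg a b ^ n := ⟨_, rfl⟩
    have hr0 : 0 < r := by
      rw [hr]
      positivity
    have hr1 : r ≤ 1 := by
      rw [hr]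
      exact pow_le_one₀ hs0.le hs1.le
    obtain ⟨δi, hδi, ci, hci, Hi⟩ := ih (ε := δr * r) (by positivity)
    rw [← hr] at Hi
    refine ⟨min δi (δr * r), lt_min hδi (by positivity), min ci cr, lt_min hci hcr, ?_⟩
    intro w μ hw hμ hwμ
    obtain ⟨J₁, Hi⟩ := Hi (w := w) (μ := μ) hw hμ hwμ
    have hrμ : r * μ ≤ μ := by nlinarith
    obtain ⟨J₂, Hr⟩ := Hr (w := w) (μ := r * μ) hw (by positivity) (by nlinarith)
    refine ⟨max J₁ J₂, ?_⟩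
    intro J hJ m F A hA Ru Rz 𝒞 Γ c Y HP hz hu
    have hJ0 : (0 : ℝ) ≤ J := Nat.cast_nonneg J
    have g1 : min δi (δr * r) * μ ≤ δi * μ :=
      mul_le_mul_of_nonneg_right (min_le_left _ _) hμ.le
    have g2 : min δi (δr * r) * μ ≤ δr * (r * μ) := by
      have := mul_le_mul_of_nonneg_right (min_le_right δi (δr * r)) hμ.le
      linarith
    have g1' := mul_le_mul_of_nonneg_right g1 hJ0
    have g2' := mul_le_mul_of_nonneg_right g2 hJ0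
    have i1 := Hi J ((le_max_left _ _).trans hJ) F A hA Ru Rz c Y
      ⟨HP.degu, HP.degz, by linarith [HP.tim], HP.key, HP.ctx.trans g1', HP.valu.trans g1',
        HP.valz.trans g1', fun j h1 h2 => (HP.jetu j h1 h2).trans g1',
        fun j h1 h2 => (HP.jetz j h1 h2).trans g1', HP.firu.trans g1', HP.firz.trans g1'⟩
      (hz.mono le_rfl g1 (min_le_left _ _)) (hu.mono le_rfl g1 (min_le_left _ _))
    have e1 : δr * r * μ * J = δr * (r * μ) * J := by ring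
    rw [e1] at i1
    have i2 := Hr J ((le_max_right _ _).trans hJ) F A hA Ru Rz c Y
      ⟨HP.degu, HP.degz, by linarith [HP.tim], HP.key, HP.ctx.trans g2', HP.valu.trans g2',
        HP.valz.trans g2', fun j h1 h2 => (HP.jetu j h1 h2).trans g2',
        fun j h1 h2 => (HP.jetz j h1 h2).trans g2', i1.1, i1.2⟩
      (hz.mono hrμ g2 (min_le_right _ _)) (hu.mono hrμ g2 (min_le_right _ _))
    have e2 : sg a b ^ (n + 1) * μ = sg a b * (r * μ) := by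
      rw [pow_succ, hr]
      ring
    rw [e2]
    have g3 : ε * (r * μ) * J ≤ ε * μ * J := by gcongr
    exact ⟨i2.1.trans g3, i2.2.trans g3⟩

/-- **Both first jets of a jointly nonfull pair are few bits**, real levels. -/
theorem pair_real (D : ℕ) (hD : 1 ≤ D) {a b : ℝ} (ha : 0 < a) (hab : a < b) {h : ℝ} (hh : 0 < h)
    (hha : h ≤ a) {ε : ℝ} (hε : 0 < ε) :
    ∃ δ : ℝ, 0 < δ ∧ ∃ c₀ : ℝ, 0 < c₀ ∧
    ∀ {w μ : ℝ} (_ : 0 ≤ w) (_ : 0 < μ) (_ : w + b * μ ≤ 1),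
    ∃ J₀ : ℕ, ∀ J ≥ J₀, ∀ {m : ℕ} (F : Fam m J) (A : F.Ω → Prop) (_ : 0 < Pe F.p A)
      (Ru Rz : LnT F → Polynomial ℝ) {𝒞 Γ : Type} (c : LnT F → 𝒞) (Y : F.Ω → Γ),
    PjH F A Ru Rz c Y D ⌊w * J⌋₊ a b μ δ →
    NFo F A Rz Ru c ⌊w * J⌋₊ b a μ h (δ * μ) c₀ → NFo F A Ru Rz c ⌊w * J⌋₊ a b μ h (δ * μ) c₀ →
    CH (Pool.Agent.H49.Ent.cond F.p A True)
      (fun ω => (⌊pj F Ru ⌊w * J⌋₊ 1 ω / 2 ^ (ε * μ * J)⌋,
        ⌊pj F Rz ⌊w * J⌋₊ 1 ω / 2 ^ (ε * μ * J)⌋)) Y ≤ ε * μ * J := by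
  have hb : 0 < b := ha.trans hab
  have hs0 := sg_pos ha hb
  have hs1 := sg_lt ha hab
  obtain ⟨n, hn⟩ := exists_pow_lt_of_lt_one (div_pos hε hb) hs1
  rw [lt_div_iff₀ hb] at hn
  obtain ⟨δ, hδ, c₀, hc₀, H⟩ := rounds D hD ha hab hh hha n (ε := ε / 4) (by positivity)
  refine ⟨δ, hδ, c₀, hc₀, ?_⟩
  intro w μ hw hμ hwμ
  obtain ⟨J₁, H⟩ := H (w := w) (μ := μ) hw hμ hwμ
  obtain ⟨J₂, hJ₂⟩ := exists_nat_ge (Real.log 7 / (ε / 4 * μ))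
  refine ⟨max J₁ J₂, ?_⟩
  intro J hJ m F A hA Ru Rz 𝒞 Γ c Y HP hz hu
  have hJ0 : (0 : ℝ) ≤ J := Nat.cast_nonneg J
  have k7 : Real.log 7 ≤ ε / 4 * μ * J := by
    have h1 : Real.log 7 / (ε / 4 * μ) ≤ J :=
      hJ₂.trans (by exact_mod_cast (le_max_right _ _).trans hJ)
    rw [div_le_iff₀ (by positivity)] at h1
    linarith
  have hq'l : IsLaw (Pool.Agent.H49.Ent.cond F.p A True) := isLaw_cond F.isLaw hA
  obtain ⟨h1, h2⟩ := H J ((le_max_left _ _).trans hJ) F A hA Ru Rz c Y HP hz hu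
  have hσ : 0 < sg a b ^ n := by positivity
  have h3 := crs hq'l (fun ω => pj F Ru ⌊w * J⌋₊ 1 ω) Y (J := J)
    (x := a * (sg a b ^ n * μ)) (x' := ε * μ) (by
      have : a * sg a b ^ n ≤ ε := by nlinarith
      nlinarith)
  have h4 := crs hq'l (fun ω => pj F Rz ⌊w * J⌋₊ 1 ω) Y (J := J)
    (x := b * (sg a b ^ n * μ)) (x' := ε * μ) (by nlinarith)
  have h5 := CH_subadd hq'l.nonneg (fun ω => ⌊pj F Ru ⌊w * J⌋₊ 1 ω / 2 ^ (ε * μ * J)⌋)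
    (fun ω => ⌊pj F Rz ⌊w * J⌋₊ 1 ω / 2 ^ (ε * μ * J)⌋) Y
  linarith

/-- The rows at the levels of a grid. -/
def NFog (F : Fam m J) (A : F.Ω → Prop) (R R₂ : LnT F → Polynomial ℝ) {𝒞 : Type} (c : LnT F → 𝒞)
    (w : ℕ) (a a₂ μ h e c₀ : ℝ) (N₀ : ℕ) : Prop :=
  ∀ B : F.Ω → Prop, Sub B A → c₀ * Pe F.p A ≤ Pe F.p B → ∀ i j : ℕ, i ≤ j → j ≤ N₀ →
    CH (Pool.Agent.H49.Ent.cond F.p B True)
      (fun ω => ⌊pj F R w 0 ω / 2 ^ ((a * (μ * i / N₀)) * J)⌋)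
      (fun ω => (⌊pj F R w 0 ω / 2 ^ ((a * (μ * j / N₀)) * J)⌋,
        (⌊pj F R₂ w 0 ω / 2 ^ ((a₂ * (μ * i / N₀)) * J)⌋, (c (slam F w ω), F.W ω)))) ≤
      ((a - h) * (μ * j / N₀ - μ * i / N₀) * Real.log 2 + e) * J

/-- Finer side information, at the price of its entropy. -/
theorem finer {Ω Γ Δ S : Type} [Fintype Ω] {q : Ω → ℝ} (hq : IsLaw q) (X : Ω → S) (f : Ω → ℝ)
    (a : Ω → Γ) (b : Ω → Δ) {x₁ x₂ : ℝ} (h : x₁ ≤ x₂) :
    CH q X (fun ω => (a ω, (⌊f ω / 2 ^ x₂⌋, b ω))) ≤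
      CH q X (fun ω => (a ω, (⌊f ω / 2 ^ x₁⌋, b ω))) + (x₂ - x₁) * Real.log 2 + Real.log 7 := by
  have h0 := hq.nonneg
  have rp : ∀ x : ℝ, (0 : ℝ) < 2 ^ x := fun x => Real.rpow_pos_of_pos (by norm_num) x
  have e1 := CH_le_add h0 X (fun ω => ⌊f ω / 2 ^ x₁⌋) (fun ω => (a ω, (⌊f ω / 2 ^ x₂⌋, b ω)))
  obtain ⟨K, hK⟩ : ∃ K : ℕ, K = ⌈(2 : ℝ) ^ (x₂ - x₁)⌉₊ := ⟨_, rfl⟩
  have hK1 : (2 : ℝ) ^ (x₂ - x₁) ≤ K := by
    rw [hK]
    exact Nat.le_ceil _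
  have hK2 : (K : ℝ) ≤ 2 * 2 ^ (x₂ - x₁) := by
    have h1 : (1 : ℝ) ≤ 2 ^ (x₂ - x₁) := Real.one_le_rpow (by norm_num) (by linarith)
    have h2 := Nat.ceil_lt_add_one (rp (x₂ - x₁)).le
    rw [← hK] at h2
    linarith
  have e2 : CH q (fun ω => ⌊f ω / 2 ^ x₁⌋) (fun ω => (a ω, (⌊f ω / 2 ^ x₂⌋, b ω))) ≤
      Real.log (2 * ((K + 1 : ℕ) : ℝ) + 1) := by
    refine CH_pair hq _ _ fun ω ω' _ _ e => ?_
    simp only [Prod.mk.injEq] at e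
    have h3 := of_floor_div (rp _) e.2.1
    refine floor_sub_le ?_
    rw [← sub_div, abs_div, abs_of_pos (rp x₁), div_le_iff₀ (rp x₁)]
    refine h3.trans ?_
    calc (2 : ℝ) ^ x₂ = 2 ^ (x₂ - x₁) * 2 ^ x₁ := by
          rw [← Real.rpow_add (by norm_num)]
          congr 1
          ring
      _ ≤ K * 2 ^ x₁ := mul_le_mul_of_nonneg_right hK1 (rp _).le
  have e3 : CH q X (fun ω => (⌊f ω / 2 ^ x₁⌋, (a ω, (⌊f ω / 2 ^ x₂⌋, b ω)))) ≤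
      CH q X (fun ω => (a ω, (⌊f ω / 2 ^ x₁⌋, b ω))) :=
    CH_mono_cond h0 fun ω ω' _ _ e => by
      simp only [Prod.mk.injEq] at e ⊢
      exact ⟨e.2.1, e.1, e.2.2.2⟩
  have e4 : Real.log (2 * ((K + 1 : ℕ) : ℝ) + 1) ≤ (x₂ - x₁) * Real.log 2 + Real.log 7 := by
    have h1 : (1 : ℝ) ≤ 2 ^ (x₂ - x₁) := Real.one_le_rpow (by norm_num) (by linarith)
    have h2 : (2 * ((K + 1 : ℕ) : ℝ) + 1) ≤ 7 * 2 ^ (x₂ - x₁) := by
      push_cast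
      linarith
    have h3 := Real.log_le_log (by positivity) h2
    rw [Real.log_mul (by norm_num) (rp _).ne', Real.log_rpow (by norm_num)] at h3
    linarith
  linarith

theorem NFog.real {F : Fam m J} {A : F.Ω → Prop} (hA : 0 < Pe F.p A) {R R₂ : LnT F → Polynomial ℝ}
    {𝒞 : Type} {c : LnT F → 𝒞} {w : ℕ} {a a₂ μ h e c₀ e' : ℝ} {N₀ : ℕ} (hN : 0 < N₀) (hμ : 0 < μ)
    (ha : 0 < a) (ha₂ : 0 < a₂) (hh : 0 ≤ h) (hha : h ≤ a) (hc₀ : 0 < c₀)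
    (H : NFog F A R R₂ c w a a₂ μ h e c₀ N₀)
    (he : ((2 * a + a₂) * (μ / N₀) + e) * J + 3 * Real.log 7 ≤ e' * J) :
    NFo F A R R₂ c w a a₂ μ h e' c₀ := by
  intro B hB hm g₂ g₁ h2 h21 h1μ
  have hN0 : (0 : ℝ) < N₀ := by exact_mod_cast hN
  have hJ0 : (0 : ℝ) ≤ J := Nat.cast_nonneg J
  have hPB : 0 < Pe F.p B := lt_of_lt_of_le (by positivity) hm
  have hBl : IsLaw (Pool.Agent.H49.Ent.cond F.p B True) := isLaw_cond F.isLaw hPB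
  have h0 := hBl.nonneg
  have rp : ∀ x : ℝ, (0 : ℝ) < 2 ^ x := fun x => Real.rpow_pos_of_pos (by norm_num) x
  obtain ⟨i, hi⟩ : ∃ i : ℕ, i = ⌊g₂ * N₀ / μ⌋₊ := ⟨_, rfl⟩
  obtain ⟨j, hj⟩ : ∃ j : ℕ, j = ⌈g₁ * N₀ / μ⌉₊ := ⟨_, rfl⟩
  have hg1 : 0 ≤ g₁ := h2.trans h21
  have hx : 0 ≤ g₂ * N₀ / μ := by positivity
  have hy : 0 ≤ g₁ * N₀ / μ := by positivity
  have hxy : g₂ * N₀ / μ ≤ g₁ * N₀ / μ := by gcongr
  have i1 : (i : ℝ) ≤ g₂ * N₀ / μ := by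
    rw [hi]
    exact Nat.floor_le hx
  have i2 : g₂ * N₀ / μ < i + 1 := by
    rw [hi]
    exact Nat.lt_floor_add_one _
  have j1 : g₁ * N₀ / μ ≤ j := by
    rw [hj]
    exact Nat.le_ceil _
  have j2 : (j : ℝ) < g₁ * N₀ / μ + 1 := by
    rw [hj]
    exact Nat.ceil_lt_add_one hy
  have hij : i ≤ j := by
    have : (i : ℝ) ≤ j := by linarith
    exact_mod_cast this
  have hjN : j ≤ N₀ := by
    rw [hj]
    refine Nat.ceil_le.mpr ?_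
    rw [div_le_iff₀ hμ]
    nlinarith
  obtain ⟨y₂, hy₂⟩ : ∃ y₂ : ℝ, y₂ = μ * i / N₀ := ⟨_, rfl⟩
  obtain ⟨y₁, hy₁⟩ : ∃ y₁ : ℝ, y₁ = μ * j / N₀ := ⟨_, rfl⟩
  have a1 : y₂ ≤ g₂ := by
    rw [hy₂, div_le_iff₀ hN0]
    rw [le_div_iff₀ hμ] at i1
    linarith
  have a2 : g₂ ≤ y₂ + μ / N₀ := by
    have h1 : g₂ * N₀ < (i + 1) * μ := by
      rw [div_lt_iff₀ hμ] at i2
      exact i2
    have h2 : y₂ + μ / N₀ = ((i + 1) * μ) / N₀ := by
      rw [hy₂]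
      ring
    rw [h2, le_div_iff₀ hN0]
    exact h1.le
  have b1 : g₁ ≤ y₁ := by
    rw [hy₁, le_div_iff₀ hN0]
    rw [div_le_iff₀ hμ] at j1
    linarith
  have b2 : y₁ ≤ g₁ + μ / N₀ := by
    have h1 : (j : ℝ) * μ < g₁ * N₀ + μ := by
      have : (j : ℝ) * μ < (g₁ * N₀ / μ + 1) * μ := mul_lt_mul_of_pos_right j2 hμ
      have e : (g₁ * N₀ / μ + 1) * μ = g₁ * N₀ + μ := by field_simp
      linarith
    rw [hy₁]
    have h2 : g₁ + μ / N₀ = (g₁ * N₀ + μ) / N₀ := by field_simp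
    rw [h2]
    gcongr
    linarith
  have h1 := H B hB hm i j hij hjN
  rw [← hy₁, ← hy₂] at h1
  -- the left side
  obtain ⟨Y, hY⟩ : ∃ Y : F.Ω → ℤ × (ℤ × (𝒞 × (ℕ × F.ζ))), Y = fun ω =>
      (⌊pj F R w 0 ω / 2 ^ ((a * g₁) * J)⌋, (⌊pj F R₂ w 0 ω / 2 ^ ((a₂ * g₂) * J)⌋,
        (c (slam F w ω), F.W ω))) := ⟨_, rfl⟩
  rw [← hY]
  have l7 : 0 ≤ Real.log 7 := Real.log_nonneg (by norm_num)
  have l57 : Real.log 5 ≤ Real.log 7 := Real.log_le_log (by norm_num) (by norm_num)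
  have s1 := crs hBl (fun ω => pj F R w 0 ω) Y (J := J) (x := a * y₂) (x' := a * g₂) (by gcongr)
  -- the coarse row of `R`
  have s2 : CH (Pool.Agent.H49.Ent.cond F.p B True)
      (fun ω => ⌊pj F R w 0 ω / 2 ^ ((a * y₂) * J)⌋) Y ≤
      CH (Pool.Agent.H49.Ent.cond F.p B True)
      (fun ω => ⌊pj F R w 0 ω / 2 ^ ((a * y₂) * J)⌋)
      (fun ω => (⌊pj F R w 0 ω / 2 ^ ((a * y₁) * J)⌋,
        (⌊pj F R₂ w 0 ω / 2 ^ ((a₂ * g₂) * J)⌋, (c (slam F w ω), F.W ω)))) + Real.log 5 := by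
    have h3 := coarse hBl (fun ω => ⌊pj F R w 0 ω / 2 ^ ((a * y₂) * J)⌋) (fun ω => pj F R w 0 ω)
      (fun _ => ()) (fun ω => (⌊pj F R₂ w 0 ω / 2 ^ ((a₂ * g₂) * J)⌋, (c (slam F w ω), F.W ω)))
      (s₁ := 2 ^ ((a * g₁) * J)) (s₂ := 2 ^ ((a * y₁) * J)) (rp _)
      (Real.rpow_le_rpow_of_exponent_le (by norm_num) (by gcongr))
    have h4 : CH (Pool.Agent.H49.Ent.cond F.p B True)
        (fun ω => ⌊pj F R w 0 ω / 2 ^ ((a * y₂) * J)⌋) Y ≤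
        CH (Pool.Agent.H49.Ent.cond F.p B True) (fun ω => ⌊pj F R w 0 ω / 2 ^ ((a * y₂) * J)⌋)
        (fun ω => ((), (⌊pj F R w 0 ω / 2 ^ ((a * g₁) * J)⌋,
          (⌊pj F R₂ w 0 ω / 2 ^ ((a₂ * g₂) * J)⌋, (c (slam F w ω), F.W ω))))) :=
      CH_mono_cond h0 fun ω ω' _ _ e => by
        rw [hY] at e
        simp only [Prod.mk.injEq] at e ⊢
        exact ⟨trivial, e.1, e.2.1, e.2.2.1, e.2.2.2⟩
    have h5 : CH (Pool.Agent.H49.Ent.cond F.p B True)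
        (fun ω => ⌊pj F R w 0 ω / 2 ^ ((a * y₂) * J)⌋)
        (fun ω => ((), (⌊pj F R w 0 ω / 2 ^ ((a * y₁) * J)⌋,
          (⌊pj F R₂ w 0 ω / 2 ^ ((a₂ * g₂) * J)⌋, (c (slam F w ω), F.W ω))))) ≤
        CH (Pool.Agent.H49.Ent.cond F.p B True) (fun ω => ⌊pj F R w 0 ω / 2 ^ ((a * y₂) * J)⌋)
        (fun ω => (⌊pj F R w 0 ω / 2 ^ ((a * y₁) * J)⌋,
          (⌊pj F R₂ w 0 ω / 2 ^ ((a₂ * g₂) * J)⌋, (c (slam F w ω), F.W ω)))) :=
      CH_mono_cond h0 fun ω ω' _ _ e => by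
        simp only [Prod.mk.injEq] at e ⊢
        exact ⟨e.2.1, e.2.2.1, e.2.2.2.1, e.2.2.2.2⟩
    linarith
  -- the row of `R₂`
  have s3 := finer hBl (fun ω => ⌊pj F R w 0 ω / 2 ^ ((a * y₂) * J)⌋) (fun ω => pj F R₂ w 0 ω)
    (fun ω => ⌊pj F R w 0 ω / 2 ^ ((a * y₁) * J)⌋) (fun ω => (c (slam F w ω), F.W ω))
    (x₁ := (a₂ * y₂) * J) (x₂ := (a₂ * g₂) * J) (by gcongr)
  have hl2 : 0 < Real.log 2 := Real.log_pos one_lt_two
  have hl21 : Real.log 2 ≤ 1 := by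
    have := Real.log_two_lt_d9
    linarith
  have hNp : 0 ≤ μ / N₀ := by positivity
  have g3 : ((a₂ * g₂) * J - (a₂ * y₂) * J) * Real.log 2 ≤ a₂ * (μ / N₀) * J := by
    have k1 : g₂ - y₂ ≤ μ / N₀ := by linarith
    have k0 : 0 ≤ g₂ - y₂ := by linarith
    have e1 : ((a₂ * g₂) * J - (a₂ * y₂) * J) * Real.log 2 =
      (a₂ * J) * ((g₂ - y₂) * Real.log 2) := by ring
    have e2 : a₂ * (μ / N₀) * J = (a₂ * J) * (μ / N₀ * 1) := by ring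
    rw [e1, e2]
    refine mul_le_mul_of_nonneg_left ?_ (by positivity)
    exact mul_le_mul k1 hl21 hl2.le hNp
  have g4 : (a - h) * (y₁ - y₂) * Real.log 2 ≤
      (a - h) * (g₁ - g₂) * Real.log 2 + 2 * a * (μ / N₀) := by
    have k1 : y₁ - y₂ ≤ (g₁ - g₂) + 2 * (μ / N₀) := by linarith
    have k2 : (a - h) * Real.log 2 * (y₁ - y₂) ≤
        (a - h) * Real.log 2 * ((g₁ - g₂) + 2 * (μ / N₀)) :=
      mul_le_mul_of_nonneg_left k1 (mul_nonneg (by linarith) hl2.le)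
    have k3 : (a - h) * Real.log 2 ≤ a := by
      have := mul_le_mul (by linarith : a - h ≤ a) hl21 hl2.le ha.le
      linarith
    have k4 := mul_le_mul_of_nonneg_right k3 (by positivity : 0 ≤ 2 * (μ / N₀))
    linarith
  have g5 := mul_le_mul_of_nonneg_right g4 hJ0
  linarith

/-- **PAIR: both first jets of a jointly nonfull pair with unequal slopes are few bits.** -/
theorem pair_jets (D : ℕ) (hD : 1 ≤ D) {a b : ℝ} (ha : 0 < a) (hab : a < b) {h : ℝ} (hh : 0 < h)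
    (hha : h ≤ a) {ε : ℝ} (hε : 0 < ε) :
    ∃ δ : ℝ, 0 < δ ∧ ∃ c₀ : ℝ, 0 < c₀ ∧ ∃ N₀ : ℕ, 0 < N₀ ∧
    ∀ {w μ : ℝ} (_ : 0 ≤ w) (_ : 0 < μ) (_ : w + b * μ ≤ 1),
    ∃ J₀ : ℕ, ∀ J ≥ J₀, ∀ {m : ℕ} (F : Fam m J) (A : F.Ω → Prop) (_ : 0 < Pe F.p A)
      (Ru Rz : LnT F → Polynomial ℝ) {𝒞 Γ : Type} (c : LnT F → 𝒞) (Y : F.Ω → Γ),
    PjH F A Ru Rz c Y D ⌊w * J⌋₊ a b μ δ →
    NFog F A Rz Ru c ⌊w * J⌋₊ b a μ h (δ * μ) c₀ N₀ →
    NFog F A Ru Rz c ⌊w * J⌋₊ a b μ h (δ * μ) c₀ N₀ →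
    CH (Pool.Agent.H49.Ent.cond F.p A True)
      (fun ω => (⌊pj F Ru ⌊w * J⌋₊ 1 ω / 2 ^ (ε * μ * J)⌋,
        ⌊pj F Rz ⌊w * J⌋₊ 1 ω / 2 ^ (ε * μ * J)⌋)) Y ≤ ε * μ * J := by
  have hb : 0 < b := ha.trans hab
  obtain ⟨δ, hδ, c₀, hc₀, H⟩ := pair_real D hD ha hab hh hha hε
  obtain ⟨N₀, hN₀⟩ := exists_nat_ge (12 * b / δ + 1)
  have hN0 : (0 : ℝ) < N₀ := lt_of_lt_of_le (by positivity) hN₀
  have hNδ : 3 * b / N₀ ≤ δ / 4 := by
    rw [div_le_iff₀ hN0]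
    have h1 : 12 * b / δ ≤ N₀ := by linarith
    rw [div_le_iff₀ hδ] at h1
    linarith
  refine ⟨δ / 2, by positivity, c₀, hc₀, N₀, by exact_mod_cast hN0, ?_⟩
  intro w μ hw hμ hwμ
  obtain ⟨J₁, H⟩ := H (w := w) (μ := μ) hw hμ hwμ
  obtain ⟨J₂, hJ₂⟩ := exists_nat_ge (12 * Real.log 7 / (δ * μ))
  refine ⟨max J₁ J₂, ?_⟩
  intro J hJ m F A hA Ru Rz 𝒞 Γ c Y HP hz hu
  have hJ0 : (0 : ℝ) ≤ J := Nat.cast_nonneg J
  have k7 : 12 * Real.log 7 ≤ δ * μ * J := by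
    have h1 : 12 * Real.log 7 / (δ * μ) ≤ J :=
      hJ₂.trans (by exact_mod_cast (le_max_right _ _).trans hJ)
    rw [div_le_iff₀ (by positivity)] at h1
    linarith
  have g1 : δ / 2 * μ * J ≤ δ * μ * J := by
    have : 0 ≤ δ * μ * J := by positivity
    linarith
  have err : ∀ x : ℝ, x ≤ 3 * b → (x * (μ / N₀) + δ / 2 * μ) * J + 3 * Real.log 7 ≤
      δ * μ * J := by
    intro x hx
    have h1 : x * (μ / N₀) ≤ δ / 4 * μ := by
      have h2 : x * (μ / N₀) ≤ 3 * b * (μ / N₀) := mul_le_mul_of_nonneg_right hx (by positivity)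
      have h3 : 3 * b * (μ / N₀) = 3 * b / N₀ * μ := by ring
      rw [h3] at h2
      exact h2.trans (mul_le_mul_of_nonneg_right hNδ hμ.le)
    have h4 := mul_le_mul_of_nonneg_right h1 hJ0
    linarith
  have hNn : 0 < N₀ := by exact_mod_cast hN0
  refine H J ((le_max_left _ _).trans hJ) F A hA Ru Rz c Y
    ⟨HP.degu, HP.degz, by linarith [HP.tim], HP.key, HP.ctx.trans g1, HP.valu.trans g1,
      HP.valz.trans g1, fun j h1 h2 => (HP.jetu j h1 h2).trans g1,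
      fun j h1 h2 => (HP.jetz j h1 h2).trans g1, HP.firu.trans g1, HP.firz.trans g1⟩
    (hz.real hA hNn hμ hb ha hh.le (hha.trans hab.le) hc₀ ?_)
    (hu.real hA hNn hμ ha hb hh.le hha hc₀ ?_)
  · exact err (2 * b + a) (by linarith)
  · exact err (2 * a + b) (by linarith)

end Pool.PAIR76
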